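import Pool.Agent.R617.TC.Defs
import Pool.Agent.H671R2.PolyAuto
import Pool.Agent.NPC.Dec
import Pool.Agent.H578R2.Med.NPClos

/-!
# Two easy constraint satisfaction problems over the rationals; finite templates are in `NP`
-/

set_option autoImplicit false

namespace Pool.Agent.T2H61.TC

open Pool.Agent.R617.TC Pool.Agent.NPC

/-! ### Disequality -/

/-- The relation `≠` of the rationals. -/
def neqRel : Rel ℚ := ⟨2, {v | v 0 ≠ v 1}⟩

/-- The relation `<` of the rationals. -/
def ltRel : Rel ℚ := ⟨2, {v | v 0 < v 1}⟩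

/-- A well-formed binary constraint. -/
def wf (n : ℕ) (C : ℕ × List ℕ) : Bool := decide (C.1 < n) && decide (C.2.length = 2)

theorem eq_replicate_of {l : List (Rel ℚ)} {S : Rel ℚ} (hl : ∀ R ∈ l, R = S) (i : ℕ) (R : Rel ℚ) :
    l[i]? = some R ↔ i < l.length ∧ R = S := by
  constructor
  · intro h
    obtain ⟨h1, h2⟩ := List.getElem?_eq_some_iff.1 h
    exact ⟨h1, hl R (h2 ▸ List.getElem_mem _)⟩
  · rintro ⟨h1, rfl⟩
    rw [List.getElem?_eq_getElem h1, hl _ (List.getElem_mem h1)]

theorem csp_bin {l : List (Rel ℚ)} {S : Set (Fin 2 → ℚ)} (hl : ∀ R ∈ l, R = ⟨2, S⟩)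
    (I : List (ℕ × List ℕ)) : CSP l I ↔
    (∀ C ∈ I, wf l.length C = true) ∧
      ∃ h : ℕ → ℚ, ∀ C ∈ I, (![h (C.2.getD 0 0), h (C.2.getD 1 0)] : Fin 2 → ℚ) ∈ S := by
  have e : ∀ (h : ℕ → ℚ) (C : ℕ × List ℕ), (∃ (R : Rel ℚ) (v : Fin R.1 → ℕ),
      l[C.1]? = some R ∧ C.2 = List.ofFn v ∧ (fun j => h (v j)) ∈ R.2) ↔
      (wf l.length C = true ∧ (![h (C.2.getD 0 0), h (C.2.getD 1 0)] : Fin 2 → ℚ) ∈ S) := by
    intro h C
    constructor
    · rintro ⟨R, v, h1, h2, h3⟩
      rw [eq_replicate_of hl] at h1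
      obtain ⟨h1, rfl⟩ := h1
      change Fin 2 → ℕ at v
      have h2' : C.2 = [v 0, v 1] := h2
      refine ⟨by simp [wf, h1, h2'], ?_⟩
      rw [h2']
      have : (fun j => h (v j)) = ![h (v 0), h (v 1)] := by
        funext j
        fin_cases j <;> rfl
      change (![h (v 0), h (v 1)] : Fin 2 → ℚ) ∈ S
      rw [← this]
      exact h3
    · rintro ⟨h1, h2⟩
      simp only [wf, Bool.and_eq_true, decide_eq_true_eq] at h1
      obtain ⟨h1, h3⟩ := h1
      obtain ⟨i, w⟩ := C
      simp only at h1 h3 h2 ⊢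
      match w, h3 with
      | [a, b], _ =>
        refine ⟨⟨2, S⟩, ![a, b], (eq_replicate_of hl _ _).2 ⟨h1, rfl⟩, rfl, ?_⟩
        have : (fun j => h ((![a, b] : Fin 2 → ℕ) j)) = ![h a, h b] := by
          funext j
          fin_cases j <;> rfl
        change (fun j => h ((![a, b] : Fin 2 → ℕ) j)) ∈ S
        rw [this]
        exact h2
  constructor
  · rintro ⟨h, hh⟩
    exact ⟨fun C hC => ((e h C).1 (hh C hC)).1, h, fun C hC => ((e h C).1 (hh C hC)).2⟩
  · rintro ⟨h1, h, h2⟩
    exact ⟨h, fun C hC => (e h C).2 ⟨h1 C hC, h2 C hC⟩⟩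

theorem tractable_neq : Tractable {neqRel} := by
  intro l hl
  have hl' : ∀ R ∈ l, R = ⟨2, {v : Fin 2 → ℚ | v 0 ≠ v 1}⟩ := fun R hR => hl R hR
  refine inPP_of (d := fun I : List (ℕ × List ℕ) => I.all fun C =>
    decide (C.1 < l.length) && decide (C.2.length = 2) &&
      !decide (C.2.getD 0 0 = C.2.getD 1 0)) ?_ ?_
  · fun_prop
  · intro I
    rw [csp_bin hl', List.all_eq_true]
    constructor
    · rintro ⟨h1, h, h2⟩ C hC
      have a1 := h1 C hC
      have a2 := h2 C hC
      simp only [wf] at a1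
      rw [a1, Bool.true_and, Bool.not_eq_true', decide_eq_false_iff_not]
      intro he
      rw [he] at a2
      exact a2 rfl
    · intro h1
      refine ⟨fun C hC => ?_, fun n => (n : ℚ), fun C hC => ?_⟩
      · have := h1 C hC
        rw [Bool.and_eq_true] at this
        exact this.1
      · have := h1 C hC
        rw [Bool.and_eq_true, Bool.not_eq_true', decide_eq_false_iff_not] at this
        intro he
        exact this.2 (Nat.cast_injective he)

/-! ### Strict order: acyclicity -/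

/-- Delete the edges whose end is not the start of an edge. -/
def step (E : List (ℕ × ℕ)) : List (ℕ × ℕ) := E.filter fun e => decide (e.2 ∈ E.map Prod.fst)

/-- The edges have a solution. -/
def Sol (E : List (ℕ × ℕ)) : Prop := ∃ h : ℕ → ℚ, ∀ e ∈ E, h e.1 < h e.2

theorem mem_step {E : List (ℕ × ℕ)} {e : ℕ × ℕ} : e ∈ step E ↔ e ∈ E ∧ e.2 ∈ E.map Prod.fst := by
  simp [step]

theorem Sol.step {E : List (ℕ × ℕ)} (h : Sol E) : Sol (step E) := by
  obtain ⟨h, hh⟩ := h
  exact ⟨h, fun e he => hh e (mem_step.1 he).1⟩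

theorem Sol.length_step {E : List (ℕ × ℕ)} (h : Sol E) (hE : E ≠ []) :
    (TC.step E).length < E.length := by
  obtain ⟨h, hh⟩ := h
  obtain ⟨e, he, hmax⟩ : ∃ e ∈ E, ∀ e' ∈ E, h e'.2 ≤ h e.2 := by
    have := Finset.exists_max_image E.toFinset (fun e => h e.2)
      (List.toFinset_nonempty_iff E |>.2 hE)
    obtain ⟨e, he, hm⟩ := this
    exact ⟨e, List.mem_toFinset.1 he, fun e' he' => hm e' (List.mem_toFinset.2 he')⟩
  refine List.length_filter_lt_length_iff_exists.2 ⟨e, he, ?_⟩
  simp only [decide_eq_true_eq]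
  intro hm
  obtain ⟨e', he', h1⟩ := List.mem_map.1 hm
  have h2 := hh e' he'
  rw [h1] at h2
  exact absurd h2 (not_lt.2 (hmax e' he'))

theorem length_iter {E : List (ℕ × ℕ)} (h : Sol E) : ∀ k, Sol (step^[k] E) ∧
    (step^[k] E).length ≤ E.length - k
  | 0 => ⟨h, by simp⟩
  | k + 1 => by
    obtain ⟨h1, h2⟩ := length_iter h k
    rw [Function.iterate_succ_apply']
    refine ⟨h1.step, ?_⟩
    by_cases he : step^[k] E = []
    · rw [he]
      simp [step]
    · have := h1.length_step he
      omega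

theorem Sol.of_step {E : List (ℕ × ℕ)} (h : Sol (TC.step E)) : Sol E := by
  classical
  obtain ⟨h, hh⟩ := h
  obtain ⟨M, hM⟩ : ∃ M : ℚ, ∀ e ∈ E, h e.1 < M := by
    obtain ⟨M, hM⟩ := (E.toFinset.image fun e => h e.1).exists_le
    refine ⟨M + 1, fun e he => ?_⟩
    have := hM (h e.1) (Finset.mem_image.2 ⟨e, List.mem_toFinset.2 he, rfl⟩)
    linarith
  refine ⟨fun v => if v ∈ E.map Prod.fst then h v else M, fun e he => ?_⟩
  have h1 : e.1 ∈ E.map Prod.fst := List.mem_map.2 ⟨e, he, rfl⟩
  simp only [if_pos h1]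
  by_cases h2 : e.2 ∈ E.map Prod.fst
  · rw [if_pos h2]
    exact hh e (mem_step.2 ⟨he, h2⟩)
  · rw [if_neg h2]
    exact hM e he

theorem sol_of_iter : ∀ (k : ℕ) (E : List (ℕ × ℕ)), Sol (step^[k] E) → Sol E
  | 0, _, h => h
  | k + 1, E, h => by
    rw [Function.iterate_succ_apply] at h
    exact (sol_of_iter k _ h).of_step

theorem sol_iff (E : List (ℕ × ℕ)) : Sol E ↔ step^[E.length] E = [] := by
  constructor
  · intro h
    have := (length_iter h E.length).2
    rw [Nat.sub_self, Nat.le_zero, List.length_eq_zero_iff] at this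
    exact this
  · intro h
    apply sol_of_iter E.length
    rw [h]
    exact ⟨fun _ => 0, fun e he => absurd he (List.not_mem_nil)⟩

theorem sz_filter_le {α : Type} [TEnc α] (p : α → Bool) (l : List α) : sz (l.filter p) ≤ sz l := by
  induction l with
  | nil => simp
  | cons a l ih =>
    rw [List.filter_cons]
    split_ifs
    · simp only [sz_list_cons]; omega
    · simp only [sz_list_cons]; omega

theorem sz_iter_step (E : List (ℕ × ℕ)) : ∀ k, sz (step^[k] E) ≤ sz E
  | 0 => le_rfl
  | k + 1 => by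
    rw [Function.iterate_succ_apply']
    exact (sz_filter_le _ _).trans (sz_iter_step E k)

theorem poly_step : Poly step := by
  unfold step
  fun_prop

/-- The edges of an instance. -/
def edges (I : List (ℕ × List ℕ)) : List (ℕ × ℕ) := I.map fun C => (C.2.getD 0 0, C.2.getD 1 0)

theorem poly_edges : Poly edges := by
  unfold edges
  fun_prop

theorem poly_iter_step : Poly (fun I : List (ℕ × List ℕ) => step^[(edges I).length] (edges I)) := by
  obtain ⟨p, hp⟩ := poly_edges.sz_le
  refine (Poly.iterLen (l := fun I : List (ℕ × List ℕ) => edges I)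
    (s := fun I => edges I) (F := fun _ E => step E) poly_edges poly_edges
    (poly_step.comp (Poly.snd Poly.id)) p ?_)
  intro I k _
  exact (sz_iter_step _ k).trans (hp I)

theorem tractable_lt : Tractable {ltRel} := by
  intro l hl
  have hl' : ∀ R ∈ l, R = ⟨2, {v : Fin 2 → ℚ | v 0 < v 1}⟩ := fun R hR => hl R hR
  refine inPP_of (d := fun I : List (ℕ × List ℕ) => (I.all fun C =>
    decide (C.1 < l.length) && decide (C.2.length = 2)) &&
      decide (step^[(edges I).length] (edges I) = [])) ?_ ?_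
  · refine Poly.and ?_ (Poly.dec_eq poly_iter_step (Pool.Agent.NPC.Poly.const ([] : List (ℕ × ℕ))))
    fun_prop
  · intro I
    rw [csp_bin hl', Bool.and_eq_true, List.all_eq_true, decide_eq_true_eq, ← sol_iff]
    refine and_congr Iff.rfl ?_
    refine exists_congr fun h => ?_
    constructor
    · intro h1 e he
      obtain ⟨C, hC, rfl⟩ := List.mem_map.1 he
      exact h1 C hC
    · intro h1 C hC
      exact h1 _ (List.mem_map.2 ⟨C, hC, rfl⟩)

end Pool.Agent.T2H61.TC
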