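import Pool.Agent.R617.TC.Hom
import Pool.Agent.H671R2.PolyAuto
import Pool.Agent.NPC.Dec
import Pool.Agent.H578R2.Med.NPClos

/-!
# Constraint satisfaction problems over finite domains are in `NP`
-/

set_option autoImplicit false

namespace Pool.Agent.T2H61.TC

open Pool.Agent.R617.TC Pool.Agent.NPC

/-- The value of the assignment coded by `w`. -/
def look (w : List (ℕ × ℕ)) (v : ℕ) : ℕ :=
  ((w.filter fun p => decide (p.1 = v)).head?.map Prod.snd).getD 0

theorem look_map (l : List ℕ) (g : ℕ → ℕ) {v : ℕ} (hv : v ∈ l) :
    look (l.map fun v => (v, g v)) v = g v := by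
  induction l with
  | nil => simp at hv
  | cons a l ih =>
    unfold look at ih ⊢
    rw [List.map_cons, List.filter_cons]
    by_cases h : a = v
    · subst h
      simp
    · simp only [h, decide_false, Bool.false_eq_true, if_false]
      exact ih ((List.mem_cons.1 hv).resolve_left (Ne.symm h))

/-- The variables. -/
def vars (I : List (ℕ × List ℕ)) : List ℕ := I.flatMap Prod.snd

theorem poly_vars : Poly vars := by
  unfold vars
  fun_prop

theorem csp_inNPP {S : Type} [Finite S] (l : List (Rel S)) : InNPP (CSP l) := by
  classical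
  rcases isEmpty_or_nonempty S with hS | hS
  · refine Med.inNPP_of_test (d := fun _ => false) (Pool.Agent.NPC.Poly.const false) fun I => ?_
    simp only [Bool.false_eq_true, iff_false]
    rintro ⟨h, -⟩
    exact hS.false (h 0)
  have := Fintype.ofFinite S
  let code : S → ℕ := fun s => (Fintype.equivFin S s : ℕ)
  have hcode : Function.Injective code := fun a b h =>
    (Fintype.equivFin S).injective (Fin.ext h)
  let dec : ℕ → S := Function.invFun code
  have hdec : ∀ s, dec (code s) = s := Function.leftInverse_invFun hcode
  have hfin : {x : ℕ × List ℕ | ∃ (R : Rel S) (u : Fin R.1 → S), l[x.1]? = some R ∧ u ∈ R.2 ∧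
      x.2 = List.ofFn fun j => code (u j)}.Finite := by
    have h1 : (⋃ i ∈ Finset.range l.length, ⋃ R ∈ {R : Rel S | l[i]? = some R},
        (Set.range fun u : Fin R.1 → S => (i, List.ofFn fun j => code (u j)))).Finite := by
      refine Set.Finite.biUnion (Finset.finite_toSet _) fun i _ => ?_
      refine Set.Finite.biUnion ?_ fun R _ => Set.finite_range _
      refine Set.Subsingleton.finite ?_
      intro R hR R' hR'
      simp only [Set.mem_setOf_eq] at hR hR'
      rw [hR] at hR'
      exact Option.some.inj hR'
    refine h1.subset ?_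
    rintro ⟨i, w⟩ ⟨R, u, h2, -, h3⟩
    simp only at h2 h3
    have hi : i < l.length := (List.getElem?_eq_some_iff.1 h2).1
    simp only [Set.mem_iUnion]
    exact ⟨i, Finset.mem_range.2 hi, R, h2, u, by rw [h3]⟩
  let tab : List (ℕ × List ℕ) := hfin.toFinset.toList
  have htab : ∀ x : ℕ × List ℕ, x ∈ tab ↔ ∃ (R : Rel S) (u : Fin R.1 → S),
      l[x.1]? = some R ∧ u ∈ R.2 ∧ x.2 = List.ofFn fun j => code (u j) := by
    intro x
    simp only [tab, Finset.mem_toList, Set.Finite.mem_toFinset, Set.mem_setOf_eq]
  obtain ⟨p, hp⟩ := poly_vars.sz_le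
  obtain ⟨M, hM⟩ : ∃ M : ℕ, ∀ s : S, sz (code s) ≤ M := by
    obtain ⟨M, hM⟩ := (Finset.univ.image fun s : S => sz (code s)).exists_le
    exact ⟨M, fun s => hM _ (Finset.mem_image.2 ⟨s, Finset.mem_univ _, rfl⟩)⟩
  refine Med.of_cert (β := List (ℕ × ℕ)) (R := fun x : List (ℕ × List ℕ) × List (ℕ × ℕ) =>
    x.1.all fun C => decide ((C.1, C.2.map fun v => look x.2 v) ∈ tab)) ?_
    (p * (p + Polynomial.C (M + 2)) + 1) ?_ ?_
  · unfold look
    fun_prop
  · intro I w hw
    rw [List.all_eq_true] at hw
    refine ⟨fun v => dec (look w v), fun C hC => ?_⟩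
    have h1 := hw C hC
    rw [decide_eq_true_eq, htab] at h1
    obtain ⟨R, u, h2, h3, h4⟩ := h1
    simp only at h2 h4
    have hlen : C.2.length = R.1 := by
      have := congrArg List.length h4
      rwa [List.length_map, List.length_ofFn] at this
    refine ⟨R, fun j => C.2[(j : ℕ)]'(by rw [hlen]; exact j.2), h2, ?_, ?_⟩
    · refine List.ext_getElem (by rw [List.length_ofFn, hlen]) fun i hi hi' => ?_
      rw [List.getElem_ofFn]
    · have h5 : (fun j : Fin R.1 => dec (look w (C.2[(j : ℕ)]'(by rw [hlen]; exact j.2)))) = u := by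
        funext j
        have h6 : (C.2.map fun v => look w v)[(j : ℕ)]'(by
            rw [List.length_map, hlen]; exact j.2) = code (u j) := by
          simp only [h4, List.getElem_ofFn]
        rw [List.getElem_map] at h6
        rw [h6, hdec]
      rw [h5]
      exact h3
  · rintro I ⟨h, hh⟩
    refine ⟨(vars I).map fun v => (v, code (h v)), ?_, ?_⟩
    · have h1 := sz_le_length_mul ((vars I).map fun v => (v, code (h v)))
        (p.eval (sz I) + M + 1) (by
          intro a ha
          obtain ⟨v, hv, rfl⟩ := List.mem_map.1 ha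
          rw [sz_pair]
          have h2 := sz_le_of_mem hv
          have h3 := hp I
          have h4 := hM (h v)
          omega)
      rw [List.length_map] at h1
      have h2 := length_lt_sz (vars I)
      have h3 := hp I
      refine h1.trans ?_
      simp only [Polynomial.eval_add, Polynomial.eval_mul, Polynomial.eval_C,
        Polynomial.eval_one]
      have h5 : (vars I).length ≤ p.eval (sz I) := by omega
      have := Nat.mul_le_mul_right (p.eval (sz I) + M + 1 + 1) h5
      linarith
    · rw [List.all_eq_true]
      intro C hC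
      obtain ⟨R, v, h1, h2, h3⟩ := hh C hC
      rw [decide_eq_true_eq, htab]
      refine ⟨R, fun j => h (v j), h1, h3, ?_⟩
      simp only
      have hmap : ∀ a ∈ C.2, look ((vars I).map fun v => (v, code (h v))) a = code (h a) := by
        intro a ha
        exact look_map (vars I) (fun v => code (h v)) (List.mem_flatMap.2 ⟨C, hC, ha⟩)
      rw [List.map_congr_left hmap, h2, List.map_ofFn]
      rfl

/-- If `P = NP` then every clone on a finite set corresponds to a tractable problem. -/
theorem cloneTractable_of {S : Type} [Finite S] (h : PEqNP)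
    (T : ∀ k : ℕ, Set ((Fin k → S) → S)) : CloneTractable T :=
  fun l _ => h _ (csp_inNPP l)

theorem typeClone_of (h : PEqNP) : TypeCloneConjecture := by
  intro L M _ hb Γ _ _ r _
  have := hb.relational
  have := hb.finite
  have := finite_types hb.homogeneous (fun i : Fin 0 => i.elim0) r
  exact ⟨0, fun i => i.elim0, cloneTractable_of h _⟩

end Pool.Agent.T2H61.TC
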