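import Pool.Agent.R617.TC.Hom
import Pool.Agent.H507R3.RamAll

/-!
# The order of the rational numbers as a base structure
-/

set_option autoImplicit false

namespace Pool.Agent.T2H61.TC

open FirstOrder FirstOrder.Language Pool.Agent.R617.TC

/-- The rational numbers with their order `≤`, in the language with one binary relation symbol. -/
instance ratStr : Language.order.Structure ℚ := Language.orderStructure ℚ

instance : Language.order.OrderedStructure ℚ := ⟨fun _ => Iff.rfl⟩

theorem relMap_le (x : Fin 2 → ℚ) :
    @Structure.RelMap Language.order ℚ _ 2 orderRel.le x ↔ x 0 ≤ x 1 := Iff.rfl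

theorem uh : Language.order.IsUltrahomogeneous ℚ :=
  (isFraisseLimit_of_countable_nonempty_dlo ℚ).ultrahomogeneous

/-- Same types of tuples of rationals: same order. -/
theorem sameType_iff_le {n m : ℕ} {c : Fin n → ℚ} {a b : Fin m → ℚ} :
    SameType Language.order c a b ↔ ∀ i j : Fin n ⊕ Fin m,
      Sum.elim c a i ≤ Sum.elim c a j ↔ Sum.elim c b i ≤ Sum.elim c b j := by
  rw [sameType_iff uh]
  constructor
  · rintro ⟨-, h⟩ i j
    exact h 2 orderRel.le ![i, j]
  · intro h
    refine ⟨fun i j => ?_, ?_⟩
    · rw [le_antisymm_iff, le_antisymm_iff, h i j, h j i]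
    · intro k R f
      cases R
      exact h (f 0) (f 1)

theorem finite_rel : Finite (Σ n, Language.order.Relations n) := inferInstance

theorem finitelyBounded_rat : FinitelyBounded Language.order ℚ := by
  classical
  refine ⟨{B | B.1 ≤ 3 ∧ ¬ Nonempty (@FirstOrder.Language.Embedding Language.order (Fin B.1) ℚ B.2 _)},
    ?_, ?_⟩
  · have hfin : ∀ n : ℕ, Finite (Language.order.Structure (Fin n)) := by
      intro n
      refine Finite.of_injective (β := (Fin 2 → Fin n) → Prop)
        (fun A => @Structure.RelMap _ _ A 2 orderRel.le) ?_
      intro A B hAB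
      ext k f
      · exact isEmptyElim f
      · cases f
        exact iff_of_eq (congrFun hAB _)
    have : (⋃ n ∈ Finset.range 4, (Set.range fun A : Language.order.Structure (Fin n) =>
        (⟨n, A⟩ : Σ n : ℕ, Language.order.Structure (Fin n)))).Finite := by
      refine Set.Finite.biUnion (Finset.range 4).finite_toSet ?_
      intro n _
      have := hfin n
      exact Set.finite_range _
    refine this.subset ?_
    rintro ⟨n, A⟩ ⟨hn, -⟩
    simp only [Set.mem_iUnion]
    refine ⟨n, Finset.mem_range.2 (by simp only at hn; omega), ⟨A, rfl⟩⟩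
  · intro n A
    constructor
    · rintro ⟨e⟩ B ⟨_, hB⟩ ⟨e'⟩
      exact hB ⟨@Embedding.comp Language.order _ _ B.2 A _ _ e e'⟩
    · intro h
      have key : ∀ (m : ℕ), m ≤ 3 → ∀ f : Fin m → Fin n, Function.Injective f →
          ∃ g : Fin m → ℚ, ∀ i j, @Structure.RelMap _ _ A 2 orderRel.le ![f i, f j] ↔ g i ≤ g j := by
        intro m hm f hf
        let B : Language.order.Structure (Fin m) :=
          { RelMap := fun {k} R x => @Structure.RelMap _ _ A k R (fun i => f (x i)) }
        by_cases hB : Nonempty (@FirstOrder.Language.Embedding Language.order (Fin m) ℚ B _)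
        · obtain ⟨g⟩ := hB
          refine ⟨g, fun i j => ?_⟩
          have h1 := @Embedding.map_rel _ _ _ B _ g 2 orderRel.le ![i, j]
          have h2 : (fun x : Fin 2 => f (![i, j] x)) = ![f i, f j] := by
            funext x
            fin_cases x <;> rfl
          have h3 : @Structure.RelMap _ _ B 2 orderRel.le ![i, j] ↔
              @Structure.RelMap _ _ A 2 orderRel.le ![f i, f j] := by
            change @Structure.RelMap _ _ A 2 orderRel.le (fun x => f (![i, j] x)) ↔ _
            rw [h2]
          rw [← h3, ← h1]
          exact Iff.rfl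
        · exfalso
          refine h ⟨m, B⟩ ⟨hm, hB⟩ ⟨?_⟩
          exact @Embedding.mk _ _ _ B A ⟨f, hf⟩ (fun {k} g => isEmptyElim g) (fun {k} R x => Iff.rfl)
      have hrefl : ∀ x : Fin n, @Structure.RelMap _ _ A 2 orderRel.le ![x, x] := by
        intro x
        obtain ⟨g, hg⟩ := key 1 (by norm_num) (fun _ => x) (fun i j _ => Subsingleton.elim _ _)
        exact (hg 0 0).2 le_rfl
      have hpair : ∀ x y : Fin n, x ≠ y → ∃ a b : ℚ, a ≠ b ∧
          (@Structure.RelMap _ _ A 2 orderRel.le ![x, y] ↔ a ≤ b) ∧
          (@Structure.RelMap _ _ A 2 orderRel.le ![y, x] ↔ b ≤ a) := by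
        intro x y hxy
        have hinj : Function.Injective ![x, y] := by
          intro i j hij
          fin_cases i <;> fin_cases j <;> simp_all
        let B : Language.order.Structure (Fin 2) :=
          { RelMap := fun {k} R z => @Structure.RelMap _ _ A k R (fun i => ![x, y] (z i)) }
        by_cases hB : Nonempty (@FirstOrder.Language.Embedding Language.order (Fin 2) ℚ B _)
        · obtain ⟨g⟩ := hB
          refine ⟨g 0, g 1, fun h0 => ?_, ?_, ?_⟩
          · have := @Embedding.injective _ _ _ B _ g _ _ h0
            exact absurd this (by decide)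
          · have h1 := @Embedding.map_rel _ _ _ B _ g 2 orderRel.le ![0, 1]
            have h2 : (fun i : Fin 2 => ![x, y] (![0, 1] i)) = ![x, y] := by
              funext i
              fin_cases i <;> rfl
            have h3 : @Structure.RelMap _ _ B 2 orderRel.le ![0, 1] ↔
                @Structure.RelMap _ _ A 2 orderRel.le ![x, y] := by
              change @Structure.RelMap _ _ A 2 orderRel.le (fun i => ![x, y] (![0, 1] i)) ↔ _
              rw [h2]
            rw [← h3, ← h1]
            exact Iff.rfl
          · have h1 := @Embedding.map_rel _ _ _ B _ g 2 orderRel.le ![1, 0]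
            have h2 : (fun i : Fin 2 => ![x, y] (![1, 0] i)) = ![y, x] := by
              funext i
              fin_cases i <;> rfl
            have h3 : @Structure.RelMap _ _ B 2 orderRel.le ![1, 0] ↔
                @Structure.RelMap _ _ A 2 orderRel.le ![y, x] := by
              change @Structure.RelMap _ _ A 2 orderRel.le (fun i => ![x, y] (![1, 0] i)) ↔ _
              rw [h2]
            rw [← h3, ← h1]
            exact Iff.rfl
        · exfalso
          refine h ⟨2, B⟩ ⟨by norm_num, hB⟩ ⟨?_⟩
          exact @Embedding.mk _ _ _ B A ⟨![x, y], hinj⟩ (fun {k} g => isEmptyElim g)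
            (fun {k} R x => Iff.rfl)
      have htrans : ∀ x y z : Fin n, @Structure.RelMap _ _ A 2 orderRel.le ![x, y] →
          @Structure.RelMap _ _ A 2 orderRel.le ![y, z] →
          @Structure.RelMap _ _ A 2 orderRel.le ![x, z] := by
        intro x y z h1 h2
        by_cases hxy : x = y
        · rw [hxy]; exact h2
        by_cases hyz : y = z
        · rw [← hyz]; exact h1
        by_cases hxz : x = z
        · rw [hxz]; exact hrefl z
        have hinj : Function.Injective ![x, y, z] := by
          intro i j hij
          fin_cases i <;> fin_cases j <;> simp_all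
        obtain ⟨g, hg⟩ := key 3 le_rfl ![x, y, z] hinj
        have e1 := (hg 0 1).1 h1
        have e2 := (hg 1 2).1 h2
        exact (hg 0 2).2 (e1.trans e2)
      have htot : ∀ x y : Fin n, @Structure.RelMap _ _ A 2 orderRel.le ![x, y] ∨
          @Structure.RelMap _ _ A 2 orderRel.le ![y, x] := by
        intro x y
        by_cases hne : x = y
        · left; rw [hne]; exact hrefl y
        obtain ⟨a, b, hab, e1, e2⟩ := hpair x y hne
        rcases le_total a b with h3 | h3
        · exact Or.inl (e1.2 h3)
        · exact Or.inr (e2.2 h3)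
      have hanti : ∀ x y : Fin n, @Structure.RelMap _ _ A 2 orderRel.le ![x, y] →
          @Structure.RelMap _ _ A 2 orderRel.le ![y, x] → x = y := by
        intro x y h1 h2
        by_contra hne
        obtain ⟨a, b, hab, e1, e2⟩ := hpair x y hne
        exact hab (le_antisymm (e1.1 h1) (e2.1 h2))
      let rk : Fin n → Finset (Fin n) := fun x =>
        Finset.univ.filter fun y => @Structure.RelMap _ _ A 2 orderRel.le ![y, x]
      have hsub : ∀ x y : Fin n, @Structure.RelMap _ _ A 2 orderRel.le ![x, y] → rk x ⊆ rk y := by
        intro x y hxy z hz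
        exact Finset.mem_filter.2 ⟨Finset.mem_univ _, htrans z x y (Finset.mem_filter.1 hz).2 hxy⟩
      have hle : ∀ x y : Fin n, (((rk x).card : ℚ) ≤ (rk y).card) ↔
          @Structure.RelMap _ _ A 2 orderRel.le ![x, y] := by
        intro x y
        rw [Nat.cast_le]
        constructor
        · intro hc
          by_contra hxy
          have hyx := (htot x y).resolve_left hxy
          have h1 : rk y ⊂ rk x := by
            refine Finset.ssubset_iff_subset_ne.2 ⟨hsub y x hyx, fun he => hxy ?_⟩
            have : x ∈ rk x := Finset.mem_filter.2 ⟨Finset.mem_univ _, hrefl x⟩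
            rw [← he] at this
            exact (Finset.mem_filter.1 this).2
          exact absurd (Finset.card_lt_card h1) (not_lt.2 hc)
        · intro hxy
          exact Finset.card_le_card (hsub x y hxy)
      have hinj : Function.Injective fun x : Fin n => ((rk x).card : ℚ) := by
        intro x y hxy
        have hxy' : ((rk x).card : ℚ) = (rk y).card := hxy
        exact hanti x y ((hle x y).1 hxy'.le) ((hle y x).1 hxy'.ge)
      refine ⟨@Embedding.mk _ _ _ A _ ⟨_, hinj⟩ (fun {k} g => isEmptyElim g) ?_⟩
      intro k R x
      cases R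
      have h2 : ![x 0, x 1] = x := by
        funext i
        fin_cases i <;> rfl
      have h3 := hle (x 0) (x 1)
      rw [h2] at h3
      exact h3

theorem ordered_rat : Ordered Language.order ℚ :=
  ⟨orderRel.le, inferInstance, Or.inr fun _ _ => Iff.rfl⟩

/-- Two finite substructures of the rationals are isomorphic iff they have the same number of
elements. -/
theorem nonempty_equiv_iff (A B : Language.order.Substructure ℚ) [Finite A] [Finite B] :
    Nonempty (A ≃[Language.order] B) ↔ Nat.card A = Nat.card B := by
  classical
  constructor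
  · rintro ⟨e⟩
    exact Nat.card_congr e.toEquiv
  · intro h
    have := Fintype.ofFinite A
    have := Fintype.ofFinite B
    rw [Nat.card_eq_fintype_card, Nat.card_eq_fintype_card] at h
    let e : A ≃o B := (Fintype.orderIsoFinOfCardEq A rfl).symm.trans
      (Fintype.orderIsoFinOfCardEq B h.symm)
    exact ⟨StrongHomClass.toEquiv e⟩

theorem ramsey_rat : Ramsey Language.order ℚ := by
  classical
  intro A B hA hB k hk
  have : Nonempty (Fin k) := ⟨⟨0, hk⟩⟩
  obtain ⟨N, hN⟩ := Pool.Agent.H507R3.RamAll.ramsey_finset (Fin k) (Nat.card A) (Nat.card B)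
  let emb : ℕ ↪ ℚ := ⟨fun n => (n : ℚ), Nat.cast_injective⟩
  let sub : Set ℚ → Language.order.Substructure ℚ := fun s =>
    { carrier := s, fun_mem := fun f => isEmptyElim f }
  have hmem : ∀ (s : Set ℚ) (x : ℚ), x ∈ sub s ↔ x ∈ s := fun s x => Iff.rfl
  let C : Language.order.Substructure ℚ := sub ((Finset.range N).map emb)
  refine ⟨C, ?_, ?_⟩
  · exact Set.Finite.to_subtype (s := ((((Finset.range N).map emb : Finset ℚ)) : Set ℚ))
      (Finset.finite_toSet _)
  · intro χ
    obtain ⟨T, hTS, hT, i, hi⟩ := hN (Finset.range N) (fun Q => χ (sub (Q.map emb)))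
      (by rw [Finset.card_range])
    have hfT : Finite (sub ((T.map emb : Finset ℚ) : Set ℚ)) :=
      Set.Finite.to_subtype (s := (((T.map emb : Finset ℚ)) : Set ℚ)) (Finset.finite_toSet _)
    refine ⟨sub (T.map emb), ?_, ?_, i, ?_⟩
    · intro x hx
      have hx' : x ∈ T.map emb := hx
      have : x ∈ (Finset.range N).map emb := Finset.map_subset_map.2 hTS hx'
      exact this
    · rw [nonempty_equiv_iff]
      have : Nat.card (sub ((T.map emb : Finset ℚ) : Set ℚ)) = (T.map emb).card := by
        exact (Nat.card_coe_set_eq _).trans (Set.ncard_coe_finset _)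
      rw [this, Finset.card_map, hT]
    · intro A' hA' hAA
      have hfA : Finite A' := Finite.of_injective (Set.inclusion (s := (A' : Set ℚ))
        (t := ((T.map emb : Finset ℚ) : Set ℚ)) hA') (Set.inclusion_injective _)
      rw [nonempty_equiv_iff] at hAA
      let Q : Finset ℕ := T.filter fun n => (n : ℚ) ∈ A'
      have hQ : A' = sub ((Q.map emb : Finset ℚ) : Set ℚ) := by
        ext x
        rw [hmem]
        constructor
        · intro hx
          have h1 : x ∈ T.map emb := hA' hx
          obtain ⟨n, hn, rfl⟩ := Finset.mem_map.1 h1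
          exact Finset.mem_coe.2 (Finset.mem_map.2 ⟨n, Finset.mem_filter.2 ⟨hn, hx⟩, rfl⟩)
        · intro hx
          obtain ⟨n, hn, rfl⟩ := Finset.mem_map.1 (Finset.mem_coe.1 hx)
          exact (Finset.mem_filter.1 hn).2
      have hc : Q.card = Nat.card A := by
        rw [← hAA]
        have : Nat.card A' = (Q.map emb).card := by
          rw [hQ]
          exact (Nat.card_coe_set_eq _).trans (Set.ncard_coe_finset _)
        rw [this, Finset.card_map]
      have := hi Q (Finset.filter_subset _ _) hc
      rw [hQ]
      exact this

theorem isBase_rat : IsBase Language.order ℚ where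
  countable := inferInstance
  relational := inferInstance
  finite := finite_rel
  homogeneous := uh
  finitelyBounded := finitelyBounded_rat
  ordered := ordered_rat
  ramsey := ramsey_rat

end Pool.Agent.T2H61.TC
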