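import Pool.Agent.T2H61.TC.Core
import Pool.Agent.R544.Nae3
import Pool.Agent.NPC.Dec

/-!
# The type clones of the reducts of the order of the rationals
-/

set_option autoImplicit false

namespace Pool.Agent.T2H61.TC

open FirstOrder FirstOrder.Language Pool.Agent.R617.TC

/-- The tuple `(x, y, y, ..., y)`. -/
def pt (r : ℕ) (x y : ℚ) : Fin r → ℚ := fun j => if (j : ℕ) = 0 then x else y

theorem pt_comp {k r : ℕ} (f : (Fin k → ℚ) → ℚ) (x y : Fin k → ℚ) :
    (fun j => f fun i => pt r (x i) (y i) j) = pt r (f x) (f y) := by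
  funext j
  unfold pt
  split_ifs <;> rfl

theorem mk_eq_iff {n m : ℕ} {c : Fin n → ℚ} {a b : Fin m → ℚ} :
    (Quotient.mk _ a : Types Language.order c m) = Quotient.mk _ b ↔
      SameType Language.order c a b := by
  exact Quotient.eq (r := typeSetoid Language.order c m)

theorem pt_lt {n r : ℕ} (hr : 2 ≤ r) {c : Fin n → ℚ} {u v u' v' : ℚ}
    (h : (Quotient.mk _ (pt r u v) : Types Language.order c r) = Quotient.mk _ (pt r u' v')) :
    u < v ↔ u' < v' := by
  have h1 := sameType_le (mk_eq_iff.1 h) ⟨1, by omega⟩ ⟨0, by omega⟩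
  simp only [pt] at h1
  rw [← not_le, ← not_le]
  simpa using not_congr h1

/-- The argument `i` decides the order of the values of `g` at the types of pairs of elements in
the position of `z`. -/
def Dec {n : ℕ} (c : Fin n → ℚ) (z : ℚ) (r k : ℕ)
    (g : (Fin k → Types Language.order c r) → Types Language.order c r) (i : Fin k) : Prop :=
  ∃ σ : Prop, ∀ x y : Fin k → ℚ, (∀ j, Near c z (x j)) → (∀ j, Near c z (y j)) →
    (∀ j, x j ≠ y j) → ∃ u v : ℚ,
      g (fun j => Quotient.mk _ (pt r (x j) (y j))) = Quotient.mk _ (pt r u v) ∧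
      (u < v ↔ (x i < y i ↔ σ))

theorem exists_dec {Γ : Set (Rel ℚ)} (hΓ : IsReduct Language.order Γ) (hcon : ¬ HasConstant Γ)
    {n : ℕ} {c : Fin n → ℚ} {z : ℚ} (hz : ∀ l, c l ≠ z) {r k : ℕ}
    {g : (Fin k → Types Language.order c r) → Types Language.order c r}
    (hg : g ∈ TypeClone Language.order Γ c r k) : ∃ i, Dec c z r k g i := by
  obtain ⟨f, hf, hcf, hfg⟩ := hg
  obtain ⟨i, σ, h⟩ := dictator hcf (z := fun _ => z) (fun _ => hz)
    (not_const hΓ hcon hf (fun _ => hz))
  refine ⟨i, σ, fun x y hx hy hxy => ⟨f x, f y, ?_, (h x hx y hy hxy).2⟩⟩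
  rw [hfg, pt_comp]

theorem dec_unique {n : ℕ} {c : Fin n → ℚ} {z : ℚ} (hz : ∀ l, c l ≠ z) {r k : ℕ} (hr : 2 ≤ r)
    {g : (Fin k → Types Language.order c r) → Types Language.order c r} {i i' : Fin k}
    (h : Dec c z r k g i) (h' : Dec c z r k g i') : i = i' := by
  classical
  by_contra hne
  obtain ⟨σ, h⟩ := h
  obtain ⟨σ', h'⟩ := h'
  obtain ⟨w, hw1, hw2⟩ := exists_gt hz
  have e1 := h (fun _ => z) (fun _ => w) (fun _ => Near.refl c z) (fun _ => hw2)
    (fun _ => hw1.ne)
  have e1' := h' (fun _ => z) (fun _ => w) (fun _ => Near.refl c z) (fun _ => hw2)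
    (fun _ => hw1.ne)
  obtain ⟨u, v, a1, a2⟩ := e1
  obtain ⟨u', v', a1', a2'⟩ := e1'
  rw [a1] at a1'
  have b1 := pt_lt hr a1'
  let x : Fin k → ℚ := fun j => if j = i then z else w
  let y : Fin k → ℚ := fun j => if j = i then w else z
  have hx : ∀ j, Near c z (x j) := by
    intro j
    simp only [x]
    split_ifs
    · exact Near.refl c z
    · exact hw2
  have hy : ∀ j, Near c z (y j) := by
    intro j
    simp only [y]
    split_ifs
    · exact hw2
    · exact Near.refl c z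
  have hxy : ∀ j, x j ≠ y j := by
    intro j
    simp only [x, y]
    split_ifs
    · exact hw1.ne
    · exact hw1.ne'
  obtain ⟨p, q, a3, a4⟩ := h x y hx hy hxy
  obtain ⟨p', q', a3', a4'⟩ := h' x y hx hy hxy
  rw [a3] at a3'
  have b2 := pt_lt hr a3'
  have c1 : x i < y i := by
    simp only [x, y, if_true]
    exact hw1
  have c2 : ¬ x i' < y i' := by
    simp only [x, y, if_neg (Ne.symm hne)]
    exact not_lt.2 hw1.le
  simp only [hw1, true_iff] at a2 a2'
  rw [a2, a2'] at b1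
  rw [a4, a4', b1] at b2
  simp only [c1, c2, true_iff, false_iff] at b2
  tauto

/-- Every type clone of a reduct of the order of the rationals without constant polymorphism has a
minion homomorphism to the projections. -/
theorem minionHom {Γ : Set (Rel ℚ)} (hΓ : IsReduct Language.order Γ) (hcon : ¬ HasConstant Γ)
    {n : ℕ} (c : Fin n → ℚ) {r : ℕ} (hr : 2 ≤ r) :
    MinionHomToProjections (TypeClone Language.order Γ c r) := by
  classical
  obtain ⟨z, hz⟩ : ∃ z : ℚ, ∀ l, c l ≠ z := by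
    obtain ⟨z, hz⟩ := Infinite.exists_notMem_finset (Finset.univ.image c)
    exact ⟨z, fun l hl => hz (Finset.mem_image.2 ⟨l, Finset.mem_univ _, hl⟩)⟩
  have h : ∀ (k : ℕ) (g : TypeClone Language.order Γ c r k), ∃ i, Dec c z r k g.1 i :=
    fun k g => exists_dec hΓ hcon hz g.2
  choose ξ hξ using h
  refine ⟨ξ, fun k m g h π hgh => ?_⟩
  refine dec_unique hz hr (hξ m h) ?_
  obtain ⟨σ, hσ⟩ := hξ k g
  refine ⟨σ, fun x y hx hy hxy => ?_⟩
  obtain ⟨u, v, h1, h2⟩ := hσ (fun j => x (π j)) (fun j => y (π j)) (fun j => hx _)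
    (fun j => hy _) (fun j => hxy _)
  exact ⟨u, v, by rw [hgh]; exact h1, h2⟩

/-! ### The relation -/

/-- The relation not-all-equal on the types of pairs of different elements in the same position
with respect to the constants. -/
def nae {n : ℕ} (c : Fin n → ℚ) : Rel (Types Language.order c 2) :=
  ⟨3, {t | ∃ p : Fin 3 → Fin 2 → ℚ, (∀ j, t j = Quotient.mk _ (p j)) ∧
    (∀ l, c l ≠ p 0 0) ∧ (∀ j b, Near c (p 0 0) (p j b)) ∧ (∀ j, p j 0 ≠ p j 1) ∧
    ¬ ((p 0 0 < p 0 1 ↔ p 1 0 < p 1 1) ∧ (p 1 0 < p 1 1 ↔ p 2 0 < p 2 1))}⟩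

theorem preserves_nae {Γ : Set (Rel ℚ)} (hΓ : IsReduct Language.order Γ) (hcon : ¬ HasConstant Γ)
    {n : ℕ} (c : Fin n → ℚ) {k : ℕ}
    {g : (Fin k → Types Language.order c 2) → Types Language.order c 2}
    (hg : g ∈ TypeClone Language.order Γ c 2 k) : Preserves g (nae c) := by
  classical
  intro t ht
  obtain ⟨f, hf, hcf, hfg⟩ := hg
  choose p hp1 hp2 hp3 hp4 hp5 using ht
  let z : Fin k → ℚ := fun i => p i 0 0
  have hz : ∀ i l, c l ≠ z i := fun i l => hp2 i l
  obtain ⟨i, σ, h⟩ := dictator hcf hz (not_const hΓ hcon hf hz)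
  have hbox : ∀ j b, (fun i => p i j b) ∈ Box c z := fun j b i => hp3 i j b
  have h' : ∀ j, (f fun i => p i j 0) ≠ (f fun i => p i j 1) ∧
      ((f fun i => p i j 0) < (f fun i => p i j 1) ↔ (p i j 0 < p i j 1 ↔ σ)) := fun j =>
    h _ (hbox j 0) _ (hbox j 1) (fun i => hp4 i j)
  refine ⟨fun j b => f fun i => p i j b, fun j => ?_, ?_, ?_, fun j => (h' j).1, ?_⟩
  · have : (fun i => t i j) = fun i => Quotient.mk _ (p i j) := by
      funext i
      exact hp1 i j
    change g (fun i => t i j) = _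
    rw [this, hfg]
  · exact ne_const hΓ hcon hf hcf hz (hbox 0 0)
  · intro j b
    exact canon_near hcf (fun i => hp3 i j b)
  · rw [(h' 0).2, (h' 1).2, (h' 2).2]
    have := hp5 i
    tauto

/-! ### Hardness -/

/-- The reduction from not-all-equal satisfiability. -/
def red (φ : R544.N3) : List (ℕ × List ℕ) := φ.map fun t => (0, [t.1, t.2.1, t.2.2])

theorem red_correct {n : ℕ} (c : Fin n → ℚ) (φ : R544.N3) :
    R544.NAE3 φ ↔ CSP [nae c] (red φ) := by
  classical
  obtain ⟨z, hz⟩ : ∃ z : ℚ, ∀ l, c l ≠ z := by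
    obtain ⟨z, hz⟩ := Infinite.exists_notMem_finset (Finset.univ.image c)
    exact ⟨z, fun l hl => hz (Finset.mem_image.2 ⟨l, Finset.mem_univ _, hl⟩)⟩
  obtain ⟨w, hw1, hw2⟩ := exists_gt hz
  constructor
  · rintro ⟨τ, hτ⟩
    let q : ℕ → Fin 2 → ℚ := fun v => if τ v = true then ![z, w] else ![w, z]
    have hq : ∀ v, (q v 0 < q v 1 ↔ τ v = true) ∧ q v 0 ≠ q v 1 ∧ ∀ b, Near c z (q v b) := by
      intro v
      by_cases h : τ v = true
      · simp only [q, h, if_true]
        refine ⟨by simpa using hw1, by simpa using hw1.ne, fun b => ?_⟩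
        fin_cases b
        · exact Near.refl c z
        · exact hw2
      · simp only [q, h]
        refine ⟨by simpa using hw1.le, by simpa using hw1.ne', fun b => ?_⟩
        fin_cases b
        · exact hw2
        · exact Near.refl c z
    refine ⟨fun v => Quotient.mk _ (q v), fun C hC => ?_⟩
    obtain ⟨t, ht, rfl⟩ := List.mem_map.1 hC
    refine ⟨nae c, ![t.1, t.2.1, t.2.2], rfl, ?_, ?_⟩
    · rfl
    · refine ⟨fun j => q (![t.1, t.2.1, t.2.2] j), fun j => rfl, ?_, ?_, ?_, ?_⟩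
      · intro l
        exact ((hq _).2.2 0).ne hz l
      · intro j b
        exact ((hq _).2.2 0).symm.trans ((hq _).2.2 b)
      · intro j
        exact (hq _).2.1
      · have := hτ t ht
        rw [(hq _).1, (hq _).1, (hq _).1]
        simp only [Matrix.cons_val_zero, Matrix.cons_val_one, Matrix.cons_val]
        intro hh
        apply this
        refine ⟨Bool.eq_iff_iff.2 hh.1, Bool.eq_iff_iff.2 hh.2⟩
  · rintro ⟨h, hh⟩
    let τ : ℕ → Bool := fun v => decide (∃ a : Fin 2 → ℚ, h v = Quotient.mk _ a ∧ a 0 < a 1)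
    have hτ : ∀ (v : ℕ) (a : Fin 2 → ℚ), h v = Quotient.mk _ a → (τ v = true ↔ a 0 < a 1) := by
      intro v a ha
      simp only [τ, decide_eq_true_eq]
      constructor
      · rintro ⟨a', ha', hlt⟩
        rw [ha] at ha'
        have := sameType_le (mk_eq_iff.1 ha') 1 0
        rw [← not_le] at hlt ⊢
        rwa [this]
      · intro hlt
        exact ⟨a, ha, hlt⟩
    refine ⟨τ, fun t ht => ?_⟩
    obtain ⟨R, v, hR, hv, hm⟩ := hh (0, [t.1, t.2.1, t.2.2]) (List.mem_map.2 ⟨t, ht, rfl⟩)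
    simp only [List.getElem?_cons_zero, Option.some.injEq] at hR
    subst hR
    obtain ⟨p, hp1, hp2, hp3, hp4, hp5⟩ := hm
    change Fin 3 → ℕ at v
    have e : [t.1, t.2.1, t.2.2] = [v 0, v 1, v 2] := hv
    simp only [List.cons.injEq, and_true] at e
    obtain ⟨e0, e1, e2⟩ := e
    rw [e0, e1, e2]
    intro hc
    apply hp5
    rw [← hτ _ _ (hp1 0), ← hτ _ _ (hp1 1), ← hτ _ _ (hp1 2), hc.1, hc.2]
    simp

theorem poly_red : NPC.Poly red := by
  unfold red
  fun_prop

theorem hardI_nae {n : ℕ} (c : Fin n → ℚ) : NPC.HardI (CSP [nae c]) :=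
  (NPC.HardPr.toHardI R544.hardPr_NAE3).trans poly_red (red_correct c)

theorem npHard_nae {n : ℕ} (c : Fin n → ℚ) : NPC.NPHardP (CSP [nae c]) :=
  (hardI_nae c).toNPHardP

end Pool.Agent.T2H61.TC
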