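import Pool.Agent.T2H61.TC.Base

/-!
# Canonical operations on the rationals over finitely many constants
-/

set_option autoImplicit false

namespace Pool.Agent.T2H61.TC

open FirstOrder FirstOrder.Language Pool.Agent.R617.TC

/-! ### Dictators -/

/-- A family of subsets of `Fin k` which is closed under complements and betweenness is given by
one element. -/
theorem dict {k : ℕ} (P : Set (Fin k) → Prop) (hC : ∀ A, P A ↔ ¬ P Aᶜ)
    (hT : ∀ A B C : Set (Fin k), P A → P B → A ∩ B ⊆ C → C ⊆ A ∪ B → P C) :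
    ∃ i, (∀ A, P A ↔ i ∈ A) ∨ (∀ A, P A ↔ i ∉ A) := by
  have main : ∀ Q : Set (Fin k) → Prop, (∀ A, Q A ↔ ¬ Q Aᶜ) →
      (∀ A B C : Set (Fin k), Q A → Q B → A ∩ B ⊆ C → C ⊆ A ∪ B → Q C) → Q Set.univ →
      ∃ i, ∀ A, Q A ↔ i ∈ A := by
    intro Q hC hT hu
    let F : Filter (Fin k) :=
      { sets := {A | Q A}
        univ_sets := hu
        sets_of_superset := fun {A B} hA hAB =>
          hT A Set.univ B hA hu (by rw [Set.inter_univ]; exact hAB) (by
            rw [Set.union_univ]; exact Set.subset_univ _)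
        inter_sets := fun {A B} hA hB =>
          hT A B _ hA hB subset_rfl (Set.inter_subset_left.trans Set.subset_union_left) }
    have hF : ∀ A, A ∈ F ↔ Q A := fun A => Iff.rfl
    let U : Ultrafilter (Fin k) := Ultrafilter.ofComplNotMemIff F (fun s => by
      rw [hF, hF]
      exact (hC s).symm)
    obtain ⟨i, hi⟩ := Ultrafilter.eq_pure_of_finite U
    refine ⟨i, fun A => ?_⟩
    have h1 : A ∈ U ↔ Q A := Iff.rfl
    rw [← h1, hi]
    exact Ultrafilter.mem_pure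
  by_cases hu : P Set.univ
  · obtain ⟨i, hi⟩ := main P hC hT hu
    exact ⟨i, Or.inl hi⟩
  · have hu' : P (Set.univ)ᶜ := by
      by_contra h
      exact hu ((hC _).2 h)
    obtain ⟨i, hi⟩ := main (fun A => P Aᶜ) (fun A => hC Aᶜ) (by
      intro A B C hA hB h1 h2
      refine hT _ _ _ hA hB ?_ ?_
      · rw [← Set.compl_union]
        exact Set.compl_subset_compl.2 h2
      · rw [← Set.compl_inter]
        exact Set.compl_subset_compl.2 h1) hu'
    refine ⟨i, Or.inr fun A => ?_⟩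
    have := hi Aᶜ
    simp only [compl_compl] at this
    rw [this]
    exact Iff.rfl

/-! ### Types over constants -/

/-- `x` has the same position with respect to the constants `c` as `z`. -/
def Near {n : ℕ} (c : Fin n → ℚ) (z x : ℚ) : Prop :=
  ∀ l, (c l < z ↔ c l < x) ∧ (z < c l ↔ x < c l)

theorem Near.refl {n : ℕ} (c : Fin n → ℚ) (z : ℚ) : Near c z z := fun _ => ⟨Iff.rfl, Iff.rfl⟩

theorem Near.symm {n : ℕ} {c : Fin n → ℚ} {z x : ℚ} (h : Near c z x) : Near c x z :=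
  fun l => ⟨(h l).1.symm, (h l).2.symm⟩

theorem Near.trans {n : ℕ} {c : Fin n → ℚ} {z x y : ℚ} (h : Near c z x) (h' : Near c x y) :
    Near c z y := fun l => ⟨(h l).1.trans (h' l).1, (h l).2.trans (h' l).2⟩

theorem Near.ne {n : ℕ} {c : Fin n → ℚ} {z x : ℚ} (h : Near c z x) (hz : ∀ l, c l ≠ z) (l : Fin n) :
    c l ≠ x := by
  intro he
  rcases lt_trichotomy (c l) z with h1 | h1 | h1
  · exact absurd ((h l).1.1 h1) (by rw [he]; exact lt_irrefl _)
  · exact hz l h1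
  · exact absurd ((h l).2.1 h1) (by rw [he]; exact lt_irrefl _)

theorem Near.between {n : ℕ} {c : Fin n → ℚ} {z x y : ℚ} (h : Near c z x) (h1 : z ≤ y)
    (h2 : y ≤ x) : Near c z y := by
  intro l
  refine ⟨⟨fun h3 => h3.trans_le h1, fun h3 => (h l).1.2 (h3.trans_le h2)⟩,
    ⟨fun h3 => h2.trans_lt ((h l).2.1 h3), fun h3 => h1.trans_lt h3⟩⟩

theorem sameType_of {n m : ℕ} {c : Fin n → ℚ} {a b : Fin m → ℚ} (h1 : ∀ j, Near c (a j) (b j))
    (h2 : ∀ i j, a i ≤ a j ↔ b i ≤ b j) : SameType Language.order c a b := by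
  rw [sameType_iff_le]
  rintro (i | i) (j | j)
  · exact Iff.rfl
  · simp only [Sum.elim_inl, Sum.elim_inr]
    rw [← not_lt, ← not_lt, (h1 j i).2]
  · simp only [Sum.elim_inl, Sum.elim_inr]
    rw [← not_lt, ← not_lt, (h1 i j).1]
  · exact h2 i j

theorem sameType_near {n m : ℕ} {c : Fin n → ℚ} {a b : Fin m → ℚ}
    (h : SameType Language.order c a b) (j : Fin m) : Near c (a j) (b j) := by
  rw [sameType_iff_le] at h
  intro l
  have h1 := h (Sum.inl l) (Sum.inr j)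
  have h2 := h (Sum.inr j) (Sum.inl l)
  simp only [Sum.elim_inl, Sum.elim_inr] at h1 h2
  exact ⟨by rw [← not_le, ← not_le, h2], by rw [← not_le, ← not_le, h1]⟩

theorem sameType_le {n m : ℕ} {c : Fin n → ℚ} {a b : Fin m → ℚ}
    (h : SameType Language.order c a b) (i j : Fin m) : a i ≤ a j ↔ b i ≤ b j :=
  sameType_iff_le.1 h (Sum.inr i) (Sum.inr j)

/-- Points above. -/
theorem exists_gt {n : ℕ} {c : Fin n → ℚ} {z : ℚ} (hz : ∀ l, c l ≠ z) : ∃ w, z < w ∧ Near c z w := by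
  have h1 : ∀ᶠ w in nhdsWithin z (Set.Ioi z), ∀ l, z < c l → w < c l := by
    rw [Filter.eventually_all]
    intro l
    by_cases h : z < c l
    · filter_upwards [nhdsWithin_le_nhds (eventually_lt_nhds h)] with w hw _
      exact hw
    · exact Filter.Eventually.of_forall fun w h' => absurd h' h
  obtain ⟨w, hw, hzw⟩ := (h1.and self_mem_nhdsWithin).exists
  refine ⟨w, hzw, fun l => ⟨⟨fun h => h.trans hzw, fun h => ?_⟩, ⟨hw l, fun h => lt_trans hzw h⟩⟩⟩
  rcases lt_trichotomy (c l) z with h2 | h2 | h2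
  · exact h2
  · exact absurd h2 (hz l)
  · exact absurd (hw l h2) (not_lt.2 h.le)

/-- Points below. -/
theorem exists_lt {n : ℕ} {c : Fin n → ℚ} {z : ℚ} (hz : ∀ l, c l ≠ z) : ∃ w, w < z ∧ Near c z w := by
  have h1 : ∀ᶠ w in nhdsWithin z (Set.Iio z), ∀ l, c l < z → c l < w := by
    rw [Filter.eventually_all]
    intro l
    by_cases h : c l < z
    · filter_upwards [nhdsWithin_le_nhds (eventually_gt_nhds h)] with w hw _
      exact hw
    · exact Filter.Eventually.of_forall fun w h' => absurd h' h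
  obtain ⟨w, hw, hzw⟩ := (h1.and self_mem_nhdsWithin).exists
  refine ⟨w, hzw, fun l => ⟨⟨hw l, fun h => lt_trans h hzw⟩, ⟨fun h => lt_trans hzw h, fun h => ?_⟩⟩⟩
  rcases lt_trichotomy (c l) z with h2 | h2 | h2
  · exact absurd (hw l h2) (not_lt.2 h.le)
  · exact absurd h2 (hz l)
  · exact h2

/-- Points above two points. -/
theorem exists_gt2 {n : ℕ} {c : Fin n → ℚ} {z x y : ℚ} (hz : ∀ l, c l ≠ z) (hx : Near c z x)
    (hy : Near c z y) : ∃ w, x < w ∧ y < w ∧ Near c z w := by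
  rcases le_total x y with h | h
  · obtain ⟨w, h1, h2⟩ := exists_gt (hy.ne hz)
    exact ⟨w, h.trans_lt h1, h1, hy.trans h2⟩
  · obtain ⟨w, h1, h2⟩ := exists_gt (hx.ne hz)
    exact ⟨w, h1, h.trans_lt h1, hx.trans h2⟩

/-- Points below two points. -/
theorem exists_lt2 {n : ℕ} {c : Fin n → ℚ} {z x y : ℚ} (hz : ∀ l, c l ≠ z) (hx : Near c z x)
    (hy : Near c z y) : ∃ w, w < x ∧ w < y ∧ Near c z w := by
  rcases le_total x y with h | h
  · obtain ⟨w, h1, h2⟩ := exists_lt (hx.ne hz)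
    exact ⟨w, h1, h1.trans_le h, hx.trans h2⟩
  · obtain ⟨w, h1, h2⟩ := exists_lt (hy.ne hz)
    exact ⟨w, h1.trans_le h, h1, hy.trans h2⟩

/-- Points between two points. -/
theorem exists_mid {n : ℕ} {c : Fin n → ℚ} {z x y : ℚ} (hx : Near c z x)
    (hy : Near c z y) (h : x < y) : ∃ w, x < w ∧ w < y ∧ Near c z w := by
  refine ⟨(x + y) / 2, by linarith, by linarith, ?_⟩
  exact hx.trans ((hx.symm.trans hy).between (by linarith) (by linarith))

/-! ### Canonical operations on boxes -/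

/-- The box of `z`: the tuples with the same positions with respect to the constants. -/
def Box {n : ℕ} (c : Fin n → ℚ) {k : ℕ} (z : Fin k → ℚ) : Set (Fin k → ℚ) :=
  {x | ∀ i, Near c (z i) (x i)}

/-- The pair `x`, `y` has the pattern `A`. -/
def Pat {k : ℕ} (A : Set (Fin k)) (x y : Fin k → ℚ) : Prop :=
  (∀ i ∈ A, x i < y i) ∧ ∀ i ∉ A, y i < x i

theorem Pat.swap {k : ℕ} {A : Set (Fin k)} {x y : Fin k → ℚ} (h : Pat A x y) : Pat Aᶜ y x :=
  ⟨fun i hi => h.2 i hi, fun i hi => h.1 i (not_not.1 hi)⟩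

theorem canon_near {n k : ℕ} {c : Fin n → ℚ} {f : (Fin k → ℚ) → ℚ}
    (hf : Canonical Language.order c f) {x y : Fin k → ℚ} (h : ∀ i, Near c (x i) (y i)) :
    Near c (f x) (f y) := by
  have h1 := hf 1 (fun i _ => x i) (fun i _ => y i) (fun i => sameType_of (fun _ => h i)
    (fun _ _ => by simp))
  exact sameType_near h1 0

theorem canon_pat {n k : ℕ} {c : Fin n → ℚ} {f : (Fin k → ℚ) → ℚ}
    (hf : Canonical Language.order c f) {z : Fin k → ℚ} {x y x' y' : Fin k → ℚ}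
    (hx : x ∈ Box c z) (hy : y ∈ Box c z) (hx' : x' ∈ Box c z) (hy' : y' ∈ Box c z)
    {A : Set (Fin k)} (h : Pat A x y) (h' : Pat A x' y') :
    (f x ≤ f y ↔ f x' ≤ f y') ∧ (f y ≤ f x ↔ f y' ≤ f x') := by
  have h1 := hf 2 (fun i => ![x i, y i]) (fun i => ![x' i, y' i]) (fun i => by
    refine sameType_of (fun j => ?_) (fun j j' => ?_)
    · fin_cases j
      · exact (hx i).symm.trans (hx' i)
      · exact (hy i).symm.trans (hy' i)
    · by_cases hi : i ∈ A
      · have e1 := h.1 i hi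
        have e2 := h'.1 i hi
        fin_cases j <;> fin_cases j' <;> simp [e1.le, e2.le, e1.not_ge, e2.not_ge]
      · have e1 := h.2 i hi
        have e2 := h'.2 i hi
        fin_cases j <;> fin_cases j' <;> simp [e1.le, e2.le, e1.not_ge, e2.not_ge])
  exact ⟨sameType_le h1 0 1, sameType_le h1 1 0⟩

theorem exists_pat {n k : ℕ} {c : Fin n → ℚ} {z : Fin k → ℚ} (hz : ∀ i l, c l ≠ z i)
    (A : Set (Fin k)) : ∃ y ∈ Box c z, Pat A z y := by
  classical
  have h : ∀ i, ∃ w, Near c (z i) w ∧ (i ∈ A → z i < w) ∧ (i ∉ A → w < z i) := by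
    intro i
    by_cases hi : i ∈ A
    · obtain ⟨w, h1, h2⟩ := exists_gt (hz i)
      exact ⟨w, h2, fun _ => h1, fun h3 => absurd hi h3⟩
    · obtain ⟨w, h1, h2⟩ := exists_lt (hz i)
      exact ⟨w, h2, fun h3 => absurd h3 hi, fun _ => h1⟩
  choose y hy1 hy2 hy3 using h
  exact ⟨y, hy1, hy2, hy3⟩

theorem exists_pat3 {n k : ℕ} {c : Fin n → ℚ} {z : Fin k → ℚ} (hz : ∀ i l, c l ≠ z i)
    (A B C : Set (Fin k)) (h1 : A ∩ B ⊆ C) (h2 : C ⊆ A ∪ B) :
    ∃ y ∈ Box c z, ∃ w ∈ Box c z, Pat A z y ∧ Pat B y w ∧ Pat C z w := by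
  classical
  obtain ⟨w, hw, hC⟩ := exists_pat hz C
  have h : ∀ i, ∃ y, Near c (z i) y ∧ (i ∈ A → z i < y) ∧ (i ∉ A → y < z i) ∧
      (i ∈ B → y < w i) ∧ (i ∉ B → w i < y) := by
    intro i
    by_cases hA : i ∈ A
    · by_cases hB : i ∈ B
      · obtain ⟨y, e1, e2, e3⟩ := exists_mid (Near.refl c (z i)) (hw i) (hC.1 i (h1 ⟨hA, hB⟩))
        exact ⟨y, e3, fun _ => e1, fun h => absurd hA h, fun _ => e2, fun h => absurd hB h⟩
      · obtain ⟨y, e1, e2, e3⟩ := exists_gt2 (hz i) (Near.refl c (z i)) (hw i)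
        exact ⟨y, e3, fun _ => e1, fun h => absurd hA h, fun h => absurd h hB, fun _ => e2⟩
    · by_cases hB : i ∈ B
      · obtain ⟨y, e1, e2, e3⟩ := exists_lt2 (hz i) (Near.refl c (z i)) (hw i)
        exact ⟨y, e3, fun h => absurd h hA, fun _ => e1, fun _ => e2, fun h => absurd hB h⟩
      · have hC' : i ∉ C := fun h => (h2 h).elim hA hB
        obtain ⟨y, e1, e2, e3⟩ := exists_mid (hw i) (Near.refl c (z i)) (hC.2 i hC')
        exact ⟨y, e3, fun h => absurd h hA, fun _ => e2, fun h => absurd h hB, fun _ => e1⟩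
  choose y hy1 hy2 hy3 hy4 hy5 using h
  exact ⟨y, hy1, w, hw, ⟨hy2, hy3⟩, ⟨hy4, hy5⟩, hC⟩

theorem mem_box_self {n k : ℕ} {c : Fin n → ℚ} {z : Fin k → ℚ} : z ∈ Box c z :=
  fun i => Near.refl c (z i)

/-- A canonical operation that is not constant on a box with infinitely many points is
lexicographic in the first place with respect to one argument. -/
theorem dictator {n k : ℕ} {c : Fin n → ℚ} {f : (Fin k → ℚ) → ℚ}
    (hf : Canonical Language.order c f) {z : Fin k → ℚ} (hz : ∀ i l, c l ≠ z i)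
    (hnc : ¬ ∃ q, ∀ x ∈ Box c z, f x = q) :
    ∃ (i : Fin k) (σ : Prop), ∀ x ∈ Box c z, ∀ y ∈ Box c z, (∀ j, x j ≠ y j) →
      f x ≠ f y ∧ (f x < f y ↔ (x i < y i ↔ σ)) := by
  classical
  -- the values are different
  have hne : ∀ A, ∀ x ∈ Box c z, ∀ y ∈ Box c z, Pat A x y → f x ≠ f y := by
    intro A x hx y hy h he
    refine hnc ⟨f z, fun x' hx' => ?_⟩
    -- a common neighbour
    have h1 : ∀ i, ∃ w, Near c (z i) w ∧ (i ∈ A → z i < w ∧ x' i < w) ∧
        (i ∉ A → w < z i ∧ w < x' i) := by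
      intro i
      by_cases hi : i ∈ A
      · obtain ⟨w, e1, e2, e3⟩ := exists_gt2 (hz i) (Near.refl c (z i)) (hx' i)
        exact ⟨w, e3, fun _ => ⟨e1, e2⟩, fun h => absurd hi h⟩
      · obtain ⟨w, e1, e2, e3⟩ := exists_lt2 (hz i) (Near.refl c (z i)) (hx' i)
        exact ⟨w, e3, fun h => absurd h hi, fun _ => ⟨e1, e2⟩⟩
    choose w hw1 hw2 hw3 using h1
    have p1 : Pat A z w := ⟨fun i hi => (hw2 i hi).1, fun i hi => (hw3 i hi).1⟩
    have p2 : Pat A x' w := ⟨fun i hi => (hw2 i hi).2, fun i hi => (hw3 i hi).2⟩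
    have c1 := canon_pat hf hx hy mem_box_self hw1 h p1
    have c2 := canon_pat hf hx hy hx' hw1 h p2
    have e1 : f z = f w := le_antisymm (c1.1.1 he.le) (c1.2.1 he.ge)
    have e2 : f x' = f w := le_antisymm (c2.1.1 he.le) (c2.2.1 he.ge)
    rw [e2, ← e1]
  let P : Set (Fin k) → Prop := fun A => ∀ x ∈ Box c z, ∀ y ∈ Box c z, Pat A x y → f x < f y
  have hP : ∀ A, ∀ x ∈ Box c z, ∀ y ∈ Box c z, Pat A x y → (P A ↔ f x < f y) := by
    intro A x hx y hy h
    refine ⟨fun h1 => h1 x hx y hy h, fun h1 x' hx' y' hy' h' => ?_⟩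
    have h2 := canon_pat hf hx hy hx' hy' h h'
    exact lt_of_le_of_ne (h2.1.1 h1.le) (hne A x' hx' y' hy' h')
  have hC : ∀ A, P A ↔ ¬ P Aᶜ := by
    intro A
    obtain ⟨y, hy, h⟩ := exists_pat hz A
    rw [hP A z mem_box_self y hy h, hP Aᶜ y hy z mem_box_self h.swap, not_lt]
    exact ⟨fun h1 => h1.le, fun h1 => lt_of_le_of_ne h1 (hne A z mem_box_self y hy h)⟩
  have hT : ∀ A B C : Set (Fin k), P A → P B → A ∩ B ⊆ C → C ⊆ A ∪ B → P C := by
    intro A B C hA hB h1 h2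
    obtain ⟨y, hy, w, hw, p1, p2, p3⟩ := exists_pat3 hz A B C h1 h2
    rw [hP C z mem_box_self w hw p3]
    exact (hA z mem_box_self y hy p1).trans (hB y hy w hw p2)
  obtain ⟨i, hi⟩ := dict P hC hT
  have key : ∀ x ∈ Box c z, ∀ y ∈ Box c z, (∀ j, x j ≠ y j) →
      f x ≠ f y ∧ (f x < f y ↔ P {j | x j < y j}) := by
    intro x hx y hy hxy
    have hp : Pat {j | x j < y j} x y := ⟨fun j hj => hj, fun j hj =>
      lt_of_le_of_ne (not_lt.1 hj) (hxy j).symm⟩
    exact ⟨hne _ x hx y hy hp, (hP _ x hx y hy hp).symm⟩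
  rcases hi with hi | hi
  · refine ⟨i, True, fun x hx y hy hxy => ⟨(key x hx y hy hxy).1, ?_⟩⟩
    rw [(key x hx y hy hxy).2, hi]
    simp
  · refine ⟨i, False, fun x hx y hy hxy => ⟨(key x hx y hy hxy).1, ?_⟩⟩
    rw [(key x hx y hy hxy).2, hi]
    simp

/-! ### No constant polymorphisms -/

theorem reduct_closed {Γ : Set (Rel ℚ)} (hΓ : IsReduct Language.order Γ) {R : Rel ℚ} (hR : R ∈ Γ)
    {s t : Fin R.1 → ℚ} (h : ∀ i j, s i ≤ s j ↔ t i ≤ t j) (hs : s ∈ R.2) : t ∈ R.2 := by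
  obtain ⟨φ, hφ⟩ := Set.empty_definable_iff.1 (hΓ R hR)
  have h1 : SameType Language.order (n := 0) (m := R.1) ![] s t := by
    rw [sameType_iff_le]
    rintro (i | i) (j | j)
    · exact i.elim0
    · exact i.elim0
    · exact j.elim0
    · exact h i j
  rw [hφ] at hs ⊢
  have h2 := h1 (φ.relabel (fun j => (Sum.inr j : Fin 0 ⊕ Fin R.1)))
  rw [Formula.realize_relabel, Formula.realize_relabel] at h2
  exact h2.1 hs

theorem not_const {Γ : Set (Rel ℚ)} (hΓ : IsReduct Language.order Γ) (hcon : ¬ HasConstant Γ)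
    {n k : ℕ} {c : Fin n → ℚ} {f : (Fin k → ℚ) → ℚ} (hf : f ∈ Pol Γ k) {z : Fin k → ℚ}
    (hz : ∀ i l, c l ≠ z i) : ¬ ∃ q, ∀ x ∈ Box c z, f x = q := by
  rintro ⟨q, hq⟩
  refine hcon ⟨q, fun R hR t ht => ?_⟩
  have he : ∀ i, ∃ e : ℚ → ℚ, StrictMono e ∧ ∀ x, Near c (z i) (e x) := by
    intro i
    obtain ⟨w, h1, h2⟩ := exists_gt (hz i)
    have : Nontrivial (Set.Ioo (z i) w) := by
      refine ⟨⟨⟨(z i + w) / 2, by constructor <;> linarith⟩,
        ⟨(z i + (z i + w) / 2) / 2, by constructor <;> linarith⟩, ?_⟩⟩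
      intro h
      have := congrArg Subtype.val h
      simp only at this
      linarith
    obtain ⟨e⟩ := Order.embedding_from_countable_to_dense ℚ (Set.Ioo (z i) w)
    refine ⟨fun x => e x, fun x y hxy => e.strictMono hxy, fun x => ?_⟩
    exact h2.between (e x).2.1.le (e x).2.2.le
  choose e he1 he2 using he
  have h1 := hf R hR (fun i j => e i (t 0 j)) (fun i =>
    reduct_closed hΓ hR (fun j j' => ((he1 i).le_iff_le).symm) (ht 0))
  have h2 : (fun j => f fun i => e i (t 0 j)) = fun _ => q := by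
    funext j
    exact hq _ fun i => he2 i _
  rw [h2] at h1
  exact h1

/-- The values on a box with infinitely many points are not constants. -/
theorem ne_const {Γ : Set (Rel ℚ)} (hΓ : IsReduct Language.order Γ) (hcon : ¬ HasConstant Γ)
    {n k : ℕ} {c : Fin n → ℚ} {f : (Fin k → ℚ) → ℚ} (hf : f ∈ Pol Γ k)
    (hcf : Canonical Language.order c f) {z : Fin k → ℚ}
    (hz : ∀ i l, c l ≠ z i) {x : Fin k → ℚ} (hx : x ∈ Box c z) (l : Fin n) : c l ≠ f x := by
  intro he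
  refine not_const hΓ hcon hf hz ⟨c l, fun y hy => ?_⟩
  have h1 := canon_near hcf (fun i => (hx i).symm.trans (hy i)) l
  rw [← he] at h1
  exact le_antisymm (not_lt.1 (fun h => absurd (h1.1.2 h) (lt_irrefl _)))
    (not_lt.1 (fun h => absurd (h1.2.2 h) (lt_irrefl _)))

end Pool.Agent.T2H61.TC
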